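import Mathlib

/-!
# Metrizability of t-extral spaces of countable tightness

We prove that every t-extral (Tychonoff) space of countable tightness is metrizable, answering a
question of Arhangel'skii.

Outline.
* `compact_of_extral`: a t-extral space is compact (a plank over the Stone-Cech compactification
  with one very large non-isolated direction).
* `ext_family`: if `X` is compact and not metrizable and there is an extender
  `φ : C_p(X) → C_p(I^J)`, then there are `f_a ∈ C(X)`, `a < ω₁`, such that for every set `T` of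
  indices some point `y_T ∈ I^J` has `φ(f_a)(y_T) > 1/2` exactly for `a ∈ T`.
* `sep`: if a continuous function on `C_p(K)` separates `{f_a : a ∈ T}` from `{f_a : a ∉ T}`, `T`
  uncountable, then finitely many points of `K` and a rational box capture uncountably many
  `a ∈ T` and no `a ∉ T`.
* `main_comb`: applying `sep` to more than `ℵ₁` almost disjoint sets `T` contradicts the countable
  tightness of the finite powers of `K` (`ct_pi`).
-/

open Set Topology Filter
open scoped Cardinal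

universe u v w

namespace Pool.Agent.Results.MP_9c9ca5_gt.TExtralMetrizable

/-- `C_p(X)`: the continuous real-valued functions on `X` with the topology of pointwise
convergence (the subspace topology inherited from the product `X → ℝ`). -/
abbrev Cp (X : Type u) [TopologicalSpace X] : Type u := {f : X → ℝ // Continuous f}

/-- Given an embedding `i : X → Y`, the subspace `X` is t-embedded in `Y`: there is a continuous
extender `φ : C_p(X) → C_p(Y)`, that is `φ(f)` restricted to `X` is `f` for every `f`. -/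
def TEmbeds {X : Type u} {Y : Type v} [TopologicalSpace X] [TopologicalSpace Y] (i : X → Y) :
    Prop :=
  ∃ φ : Cp X → Cp Y, Continuous φ ∧ ∀ (f : Cp X) (x : X), (φ f).1 (i x) = f.1 x

/-- `X` is t-extral: `X` is t-embedded in every Tychonoff space `Y` containing `X` as a closed
subspace. -/
def TExtral (X : Type u) [TopologicalSpace X] : Prop :=
  ∀ (Y : Type u) [TopologicalSpace Y] [T35Space Y] (i : X → Y), IsClosedEmbedding i → TEmbeds i

/-- Countable tightness `t(X) = ω`. -/
def CountablyTight (X : Type u) [TopologicalSpace X] : Prop :=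
  ∀ (A : Set X) (x : X), x ∈ closure A → ∃ B : Set X, B ⊆ A ∧ B.Countable ∧ x ∈ closure B

/-! ### countable tightness of products -/

theorem ct_prod {K : Type u} {L : Type v} [TopologicalSpace K] [TopologicalSpace L]
    [CompactSpace K] [T2Space K] (hK : CountablyTight K) (hL : CountablyTight L) :
    ∀ (A : Set (K × L)) (x : K × L), x ∈ closure A →
      ∃ B : Set (K × L), B ⊆ A ∧ B.Countable ∧ x ∈ closure B := by
  intro A x hx
  by_contra hcon
  push Not at hcon
  -- omega-closure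
  let cc : Set (K × L) → Set (K × L) := fun A => {p | ∃ B ⊆ A, B.Countable ∧ p ∈ closure B}
  have ccmono : ∀ {A A' : Set (K × L)}, A ⊆ A' → cc A ⊆ cc A' := by
    rintro A A' h p ⟨B, hB, hc, hp⟩
    exact ⟨B, hB.trans h, hc, hp⟩
  have hxcc : x ∉ cc A := by
    rintro ⟨B, hB, hc, hp⟩
    exact hcon B hB hc hp
  let G : Set K := {k | (k, x.2) ∈ cc A}
  have hGclosed : ∀ k ∈ closure G, k ∈ G := by
    intro k hk
    obtain ⟨C, hCG, hCc, hkC⟩ := hK G k hk
    have : ∀ c : C, ∃ B ⊆ A, B.Countable ∧ ((c : K), x.2) ∈ closure B := fun c => hCG c.2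
    choose B hBA hBc hB using this
    have := hCc.to_subtype
    refine ⟨⋃ c, B c, iUnion_subset hBA, countable_iUnion hBc, ?_⟩
    have hmap : MapsTo (fun k : K => (k, x.2)) C (closure (⋃ c, B c)) := by
      intro c hc
      exact closure_mono (subset_iUnion B ⟨c, hc⟩) (hB ⟨c, hc⟩)
    have h2 := map_mem_closure (f := fun k : K => (k, x.2)) (by fun_prop) hkC hmap
    rwa [closure_closure] at h2
  have hG : IsClosed G := isClosed_of_closure_subset hGclosed
  have hxG : x.1 ∉ G := hxcc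
  obtain ⟨U, hUo, hxU, hUG⟩ : ∃ U : Set K, IsOpen U ∧ x.1 ∈ U ∧ Disjoint (closure U) G := by
    have := (hG.isOpen_compl.mem_nhds hxG)
    obtain ⟨V, hV, hVc, hVs⟩ := exists_mem_nhds_isClosed_subset this
    refine ⟨interior V, isOpen_interior, mem_interior_iff_mem_nhds.2 hV, ?_⟩
    have h1 : closure (interior V) ⊆ V := hVc.closure_subset_iff.2 interior_subset
    exact Set.disjoint_left.2 fun a ha hb => hVs (h1 ha) hb
  let A' : Set (K × L) := A ∩ (U ×ˢ univ)
  have hxA' : x ∈ closure A' := by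
    have hop : IsOpen (U ×ˢ (univ : Set L)) := hUo.prod isOpen_univ
    rw [mem_closure_iff] at hx ⊢
    intro O hO hxO
    obtain ⟨y, hy, hyA⟩ := hx (O ∩ (U ×ˢ univ)) (hO.inter hop) ⟨hxO, hxU, mem_univ _⟩
    exact ⟨y, hy.1, hyA, hy.2⟩
  let H : Set L := {l | ∃ k ∈ closure U, (k, l) ∈ cc A'}
  have hHclosed : ∀ l ∈ closure H, l ∈ H := by
    intro l hl
    obtain ⟨C, hCH, hCc, hlC⟩ := hL H l hl
    have : ∀ c : C, ∃ k ∈ closure U, ∃ B ⊆ A', B.Countable ∧ (k, (c : L)) ∈ closure B :=
      fun c => hCH c.2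
    choose kk hkk B hBA hBc hB using this
    have := hCc.to_subtype
    have hBs : (⋃ c, B c) ⊆ A' := iUnion_subset hBA
    have hproj : IsClosed (Prod.snd '' closure (⋃ c, B c)) :=
      isClosedMap_snd_of_compactSpace _ isClosed_closure
    have hC : C ⊆ Prod.snd '' closure (⋃ c, B c) := by
      intro c hc
      exact ⟨(kk ⟨c, hc⟩, c), closure_mono (subset_iUnion B ⟨c, hc⟩) (hB ⟨c, hc⟩), rfl⟩
    have hl2 := hproj.closure_subset_iff.2 hC hlC
    obtain ⟨⟨k, l'⟩, hkl, rfl⟩ := hl2
    refine ⟨k, ?_, ⋃ c, B c, hBs, countable_iUnion hBc, hkl⟩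
    have hm : MapsTo (Prod.fst : K × L → K) (⋃ c, B c) U := fun p hp => (hBs hp).2.1
    exact map_mem_closure continuous_fst hkl hm
  have hH : IsClosed H := isClosed_of_closure_subset hHclosed
  have hA'H : MapsTo (Prod.snd : K × L → L) A' H := by
    rintro ⟨k, l⟩ hkl
    exact ⟨k, subset_closure hkl.2.1, {(k, l)}, by simpa using hkl, countable_singleton _,
      subset_closure rfl⟩
  have hx2 : x.2 ∈ H := by
    have := map_mem_closure continuous_snd hxA' hA'H
    rwa [hH.closure_eq] at this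
  obtain ⟨k, hkU, hk⟩ := hx2
  exact Set.disjoint_left.1 hUG hkU (ccmono inter_subset_left hk)

theorem ct_homeo {X : Type u} {Y : Type v} [TopologicalSpace X] [TopologicalSpace Y]
    (e : X ≃ₜ Y) (hX : CountablyTight X) : CountablyTight Y := by
  intro A y hy
  have h1 : e.symm y ∈ closure (e ⁻¹' A) := by
    rw [← e.preimage_closure]
    simpa using hy
  obtain ⟨B, hB, hBc, hyB⟩ := hX _ _ h1
  refine ⟨e '' B, by simpa [Set.image_subset_iff] using hB, hBc.image _, ?_⟩
  rw [← e.image_closure]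
  exact ⟨e.symm y, hyB, by simp⟩

theorem ct_pi {K : Type u} [TopologicalSpace K] [CompactSpace K] [T2Space K]
    (hK : CountablyTight K) : ∀ n : ℕ, CountablyTight (Fin n → K) := by
  intro n
  induction n with
  | zero =>
    intro A x hx
    obtain ⟨a, ha⟩ := closure_nonempty_iff.1 ⟨x, hx⟩
    refine ⟨{a}, by simpa using ha, countable_singleton _, subset_closure ?_⟩
    exact Subsingleton.elim _ _
  | succ n ih =>
    have h : CountablyTight (K × (Fin n → K)) := ct_prod hK ih
    let e : (K × (Fin n → K)) ≃ₜ (Fin (n + 1) → K) :=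
      { toFun := fun p => Fin.cons p.1 p.2
        invFun := fun f => (f 0, fun i => f i.succ)
        left_inv := fun p => by simp
        right_inv := fun f => by
          funext i
          refine Fin.cases ?_ (fun j => ?_) i <;> simp
        continuous_toFun := by
          refine continuous_pi fun i => ?_
          refine Fin.cases ?_ (fun j => ?_) i
          · simpa using continuous_fst
          · simp only [Fin.cons_succ]
            fun_prop
        continuous_invFun := by fun_prop }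
    exact ct_homeo e h


theorem exists_pos_le {ι : Type u} (s : Finset ι) (e : ι → ℝ) (he : ∀ i, 0 < e i) :
    ∃ d : ℝ, 0 < d ∧ ∀ i ∈ s, d ≤ e i := by
  classical
  induction s using Finset.induction_on with
  | empty => exact ⟨1, one_pos, by simp⟩
  | insert a s ha ih =>
    obtain ⟨d, hd, hds⟩ := ih
    refine ⟨min d (e a), lt_min hd (he a), fun i hi => ?_⟩
    rcases Finset.mem_insert.1 hi with rfl | h
    · exact min_le_right _ _
    · exact (min_le_left _ _).trans (hds i h)

theorem cp_nhds {X : Type u} [TopologicalSpace X] {f : Cp X} {Z : Set (Cp X)} (h : Z ∈ 𝓝 f) :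
    ∃ (E : Finset X) (e : ℝ), 0 < e ∧ ∀ g : Cp X, (∀ x ∈ E, |g.1 x - f.1 x| < e) → g ∈ Z := by
  rw [nhds_subtype_eq_comap, mem_comap] at h
  obtain ⟨V, hV, hVZ⟩ := h
  rw [nhds_pi, Filter.mem_pi'] at hV
  obtain ⟨I, t, ht, hI⟩ := hV
  have : ∀ i, ∃ e > 0, Metric.ball (f.1 i) e ⊆ t i := fun i => Metric.mem_nhds_iff.1 (ht i)
  choose e he0 he using this
  obtain ⟨d, hd, hds⟩ := exists_pos_le I e he0
  refine ⟨I, d, hd, fun g hg => hVZ (hI ?_)⟩
  intro i hi
  refine he i ?_
  rw [Metric.mem_ball, Real.dist_eq]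
  exact (hg i hi).trans_le (hds i hi)

theorem unc_pigeonhole {α : Type u} {β : Type v} [Countable β] {s : Set α} (hs : ¬ s.Countable)
    (F : α → β) : ∃ b, ¬ {a | a ∈ s ∧ F a = b}.Countable := by
  by_contra hcon
  push Not at hcon
  apply hs
  have : s = ⋃ b, {a | a ∈ s ∧ F a = b} := by
    ext a; simp
  rw [this]
  exact countable_iUnion hcon

/-- Root lemma: in an uncountable family of finite sets of bounded size there is a finite set
`R` contained in uncountably many of them, while every other point lies in only countably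
many of the ones containing `R`. -/
theorem exists_root {α : Type u} {J : Type v} [DecidableEq J] {s : Set α} (hs : ¬ s.Countable)
    (E : α → Finset J) (n : ℕ) (hn : ∀ a ∈ s, (E a).card = n) :
    ∃ R : Finset J, ¬ {a | a ∈ s ∧ R ⊆ E a}.Countable ∧
      ∀ j, j ∉ R → {a | (a ∈ s ∧ R ⊆ E a) ∧ j ∈ E a}.Countable := by
  have hne : {R : Finset J | ¬ {a | a ∈ s ∧ R ⊆ E a}.Countable}.Nonempty :=
    ⟨∅, by simpa using hs⟩
  obtain ⟨R, hR, hmin⟩ := (measure (fun R : Finset J => n - R.card)).wf.has_min _ hne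
  refine ⟨R, hR, fun j hj => ?_⟩
  by_contra hc
  have h1 : insert j R ∈ {R : Finset J | ¬ {a | a ∈ s ∧ R ⊆ E a}.Countable} := by
    intro hcount
    apply hc
    refine hcount.mono ?_
    rintro a ⟨⟨ha, hRa⟩, hja⟩
    exact ⟨ha, Finset.insert_subset hja hRa⟩
  have h2 := hmin _ h1
  apply h2
  have hcard : (insert j R).card = R.card + 1 := Finset.card_insert_of_notMem hj
  obtain ⟨a, ha, hsub⟩ : {a | a ∈ s ∧ insert j R ⊆ E a}.Nonempty := by
    rw [Set.nonempty_iff_ne_empty]
    intro h0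
    apply h1
    show {a | a ∈ s ∧ insert j R ⊆ E a}.Countable
    rw [h0]; exact countable_empty
  have h3 := Finset.card_le_card hsub
  rw [hn a ha, hcard] at h3
  show n - (insert j R).card < n - R.card
  omega

theorem sep {K : Type u} [TopologicalSpace K] [NormalSpace K] [T1Space K] {Λ : Type v}
    (f : Λ → Cp K) (c : Cp K → ℝ) (hc : Continuous c) (T : Set Λ) (hT : ¬ T.Countable)
    (h1 : ∀ a ∈ T, 1 / 2 < c (f a)) (h2 : ∀ b, b ∉ T → c (f b) < 1 / 2) :
    ∃ (n : ℕ) (z : Fin n → K) (v : Fin n → ℚ) (m : ℕ),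
      ¬ {a | a ∈ T ∧ ∀ k, |(f a).1 (z k) - v k| < 1 / ((m : ℝ) + 1)}.Countable ∧
      ∀ b, b ∉ T → ∃ k, 1 / ((m : ℝ) + 1) ≤ |(f b).1 (z k) - v k| := by
  classical
  -- basic neighbourhoods
  have hW : ∀ a : Λ, ∃ (E : Finset K) (e : ℝ), 0 < e ∧ ∀ g : Cp K,
      (∀ x ∈ E, |g.1 x - (f a).1 x| < e) → ((a ∈ T → 1 / 2 < c g) ∧ (a ∉ T → c g < 1 / 2)) := by
    intro a
    by_cases ha : a ∈ T
    · have : c ⁻¹' Ioi (1 / 2) ∈ 𝓝 (f a) :=
        hc.continuousAt.preimage_mem_nhds (isOpen_Ioi.mem_nhds (h1 a ha))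
      obtain ⟨E, e, he, h⟩ := cp_nhds this
      exact ⟨E, e, he, fun g hg => ⟨fun _ => h g hg, fun h' => absurd ha h'⟩⟩
    · have : c ⁻¹' Iio (1 / 2) ∈ 𝓝 (f a) :=
        hc.continuousAt.preimage_mem_nhds (isOpen_Iio.mem_nhds (h2 a ha))
      obtain ⟨E, e, he, h⟩ := cp_nhds this
      exact ⟨E, e, he, fun g hg => ⟨fun h' => absurd h' ha, fun _ => h g hg⟩⟩
  choose E e he0 hE using hW
  have key : ∀ a ∈ T, ∀ b, b ∉ T → ∃ x ∈ E a, x ∈ E b ∧ e a ≤ |(f a).1 x - (f b).1 x| := by
    intro a ha b hb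
    by_contra hcon
    push Not at hcon
    -- glue
    have hd : Disjoint ((E b : Set K)) ((E a \ E b : Finset K) : Set K) := by
      rw [Finset.disjoint_coe]
      exact Finset.disjoint_sdiff
    obtain ⟨u, hu0, hu1, -⟩ := exists_continuous_zero_one_of_isClosed
      (E b).finite_toSet.isClosed (E a \ E b).finite_toSet.isClosed hd
    let g : Cp K := ⟨fun x => (f b).1 x + u x * ((f a).1 x - (f b).1 x),
      (f b).2.add (u.continuous.mul ((f a).2.sub (f b).2))⟩
    have hgb : ∀ x ∈ E b, |g.1 x - (f b).1 x| < e b := by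
      intro x hx
      have : u x = 0 := hu0 (by simpa using hx)
      simp [g, this, he0 b]
    have hga : ∀ x ∈ E a, |g.1 x - (f a).1 x| < e a := by
      intro x hx
      by_cases hxb : x ∈ E b
      · have : u x = 0 := hu0 (by simpa using hxb)
        have h3 := hcon x hx hxb
        simp only [g, this, zero_mul, add_zero]
        rwa [abs_sub_comm] at h3
      · have : u x = 1 := hu1 (by simp [hx, hxb])
        simp [g, this, he0 a]
    have h3 := (hE a g hga).1 ha
    have h4 := (hE b g hgb).2 hb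
    linarith
  -- pigeonhole on size and radius
  have hm : ∀ a, ∃ m : ℕ, 4 / ((m : ℝ) + 1) < e a := by
    intro a
    obtain ⟨m, hm⟩ := exists_nat_gt (4 / e a)
    refine ⟨m, ?_⟩
    have := he0 a
    rw [div_lt_iff₀ this] at hm
    rw [div_lt_iff₀ (by positivity)]
    nlinarith
  choose m hm using hm
  obtain ⟨⟨n, m0⟩, hT1⟩ := unc_pigeonhole hT (fun a => ((E a).card, m a))
  set T1 := {a | a ∈ T ∧ ((E a).card, m a) = (n, m0)} with hT1def
  obtain ⟨R, hR, hRmax⟩ := exists_root hT1 E n (fun a ha => (Prod.mk.inj ha.2).1)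
  have hq : ∀ a : Λ, ∃ q : R → ℚ, ∀ x : R, |(f a).1 x - q x| < 1 / ((m0 : ℝ) + 1) := by
    intro a
    have : ∀ x : R, ∃ q : ℚ, |(f a).1 x - q| < 1 / ((m0 : ℝ) + 1) := by
      intro x
      obtain ⟨q, hq1, hq2⟩ := exists_rat_btwn
        (show (f a).1 x - 1 / ((m0 : ℝ) + 1) < (f a).1 x + 1 / ((m0 : ℝ) + 1) by
          have : 0 < 1 / ((m0 : ℝ) + 1) := by positivity
          linarith)
      exact ⟨q, by rw [abs_lt]; constructor <;> linarith⟩
    choose q hq using this
    exact ⟨q, hq⟩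
  choose q hq using hq
  obtain ⟨v, hv⟩ := unc_pigeonhole hR q
  let eR : R ≃ Fin R.card := R.equivFin
  refine ⟨R.card, fun k => (eR.symm k : K), fun k => v (eR.symm k), m0, ?_, ?_⟩
  · intro hcount
    apply hv
    refine hcount.mono ?_
    rintro a ⟨⟨⟨haT, -⟩, -⟩, hqa⟩
    refine ⟨haT, fun k => ?_⟩
    have := hq a (eR.symm k)
    rwa [hqa] at this
  · intro b hb
    have hcount : (⋃ x ∈ (E b \ R : Finset K), {a | (a ∈ T1 ∧ R ⊆ E a) ∧ x ∈ E a}).Countable := by
      refine (Finset.countable_toSet _).biUnion fun x hx => hRmax x ?_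
      simp at hx
      exact hx.2
    obtain ⟨a, ⟨⟨haT1, hRa⟩, hqa⟩, hanot⟩ :
        ∃ a, a ∈ {a | a ∈ {a | a ∈ T1 ∧ R ⊆ E a} ∧ q a = v} ∧
          a ∉ ⋃ x ∈ (E b \ R : Finset K), {a | (a ∈ T1 ∧ R ⊆ E a) ∧ x ∈ E a} := by
      by_contra hcon
      push Not at hcon
      exact hv (hcount.mono hcon)
    obtain ⟨x, hxa, hxb, hx⟩ := key a haT1.1 b hb
    have hxR : x ∈ R := by
      by_contra hxR
      apply hanot
      simp only [mem_iUnion]
      exact ⟨x, by simp [hxb, hxR], ⟨haT1, hRa⟩, hxa⟩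
    refine ⟨eR ⟨x, hxR⟩, ?_⟩
    simp only [Equiv.symm_apply_apply]
    have h5 := hq a ⟨x, hxR⟩
    rw [hqa] at h5
    have h6 : 4 / ((m0 : ℝ) + 1) < e a := by
      have := hm a
      rwa [(Prod.mk.inj haT1.2).2] at this
    have h7 : 4 / ((m0 : ℝ) + 1) = 4 * (1 / ((m0 : ℝ) + 1)) := by ring
    have hpos : 0 < 1 / ((m0 : ℝ) + 1) := by positivity
    have h8 : |(f a).1 x - (f b).1 x| ≤ |(f a).1 x - v ⟨x, hxR⟩| + |(f b).1 x - v ⟨x, hxR⟩| := by
      have := abs_sub_le ((f a).1 x) (v ⟨x, hxR⟩ : ℝ) ((f b).1 x)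
      rwa [abs_sub_comm ((v ⟨x, hxR⟩ : ℝ)) ((f b).1 x)] at this
    simp only at h5 ⊢
    linarith

abbrev Omega : Type := (ℵ₁ : Cardinal.{0}).ord.ToType

theorem mk_Omega : #Omega = ℵ₁ := by simp [Omega]

theorem countable_iff_lt {α : Type u} (s : Set α) : s.Countable ↔ #s < ℵ₁ := by
  rw [← Cardinal.le_aleph0_iff_set_countable, ← Cardinal.succ_aleph0, Order.lt_succ_iff]

theorem countable_Iio_Omega (a : Omega) : (Iio a).Countable := by
  rw [countable_iff_lt]
  have h := Cardinal.mk_Iio_lt a (by simp [Omega])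
  rwa [mk_Omega] at h

theorem not_countable_univ_Omega : ¬ (univ : Set Omega).Countable := by
  rw [countable_iff_lt, Cardinal.mk_univ, mk_Omega]
  exact lt_irrefl _

theorem exists_functions : ∃ H : Set (Omega → Omega), ℵ₁ < #H ∧
    ∀ g ∈ H, ∀ h ∈ H, g ≠ h → {a | g a = h a}.Countable := by
  let r : (Omega → Omega) → (Omega → Omega) → Prop := fun g h => {a | g a = h a}.Countable
  obtain ⟨M, hM⟩ := zorn_subset {H : Set (Omega → Omega) | H.Pairwise r} (by
    intro c hc hchain
    refine ⟨⋃₀ c, ?_, fun s hs => subset_sUnion_of_mem hs⟩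
    show (⋃₀ c).Pairwise r
    rw [Set.pairwise_sUnion hchain.directedOn]
    exact fun a ha => hc ha)
  have hMp : M.Pairwise r := hM.prop
  refine ⟨M, ?_, fun g hg h hh hne => hMp hg hh hne⟩
  by_contra hle
  rw [not_lt, ← mk_Omega, Cardinal.le_def] at hle
  obtain ⟨j⟩ := hle
  classical
  -- enumeration of `M`
  let e : Omega → (Omega → Omega) := fun a =>
    if h : ∃ g : M, j g = a then (h.choose : Omega → Omega) else fun _ => a
  have he : ∀ g : M, e (j g) = g := by
    intro g
    have h : ∃ g' : M, j g' = j g := ⟨g, rfl⟩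
    simp only [e, dif_pos h]
    exact congrArg _ (j.injective h.choose_spec)
  have hg : ∀ a : Omega, ∃ b : Omega, ∀ a' ≤ a, b ≠ e a' a := by
    intro a
    have hc : ((fun a' => e a' a) '' Iic a).Countable := by
      refine Countable.image ?_ _
      rw [← Iio_insert]
      exact (countable_Iio_Omega a).insert a
    by_contra hcon
    push Not at hcon
    apply not_countable_univ_Omega
    refine hc.mono ?_
    intro b _
    obtain ⟨a', ha', hb⟩ := hcon b
    exact ⟨a', ha', hb.symm⟩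
  choose g hg using hg
  have hins : (insert g M).Pairwise r := by
    refine hMp.insert ?_
    intro h hh _
    have hcnt : {a | g a = h a}.Countable := by
      refine (countable_Iio_Omega (j ⟨h, hh⟩)).mono ?_
      intro a ha
      simp only [mem_ofPred_eq] at ha
      by_contra hlt
      have hle : j ⟨h, hh⟩ ≤ a := not_lt.1 hlt
      apply hg a _ hle
      rw [he, ha]
    refine ⟨hcnt, ?_⟩
    have : {a | h a = g a} = {a | g a = h a} := by ext a; exact eq_comm
    show {a | h a = g a}.Countable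
    rwa [this]
  have hgM : g ∈ M := hM.le_of_ge hins (subset_insert _ _) (mem_insert _ _)
  apply hg (j ⟨g, hgM⟩) _ le_rfl
  rw [he]

theorem exists_almost_disjoint (Λ : Type) (hΛ : #Λ = ℵ₁) : ∃ G : Set (Set Λ), ℵ₁ < #G ∧
    (∀ T ∈ G, ¬ T.Countable) ∧ ∀ T ∈ G, ∀ T' ∈ G, T ≠ T' → (T ∩ T').Countable := by
  obtain ⟨H, hH, hHd⟩ := exists_functions
  have h1 : #(Omega × Omega) = #Λ := by
    rw [Cardinal.mk_prod, hΛ, mk_Omega]
    simp
  obtain ⟨eq⟩ := Cardinal.eq.1 h1
  let graph : (Omega → Omega) → Set Λ := fun g => eq '' {p | p.2 = g p.1}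
  have hinj : Function.Injective graph := by
    intro g h hgh
    have := eq.injective.image_injective hgh
    funext a
    have h2 : (a, g a) ∈ {p : Omega × Omega | p.2 = h p.1} := by
      rw [← this]; rfl
    exact h2
  refine ⟨graph '' H, ?_, ?_, ?_⟩
  · rwa [Cardinal.mk_image_eq hinj]
  · rintro _ ⟨g, -, rfl⟩ hc
    apply not_countable_univ_Omega
    have h3 : ((fun p : Omega × Omega => p.1) '' {p : Omega × Omega | p.2 = g p.1}).Countable := by
      refine Countable.image ?_ _
      exact (Set.countable_of_injective_of_countable_image eq.injective.injOn hc)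
    refine h3.mono ?_
    intro a _
    exact ⟨(a, g a), rfl, rfl⟩
  · rintro _ ⟨g, hg, rfl⟩ _ ⟨h, hh, rfl⟩ hne
    have hgh : g ≠ h := fun h' => hne (by rw [h'])
    rw [← image_inter eq.injective]
    refine Countable.image ?_ _
    refine ((hHd g hg h hh hgh).image fun a => (a, g a)).mono ?_
    rintro ⟨a, b⟩ ⟨h4, h5⟩
    simp only [mem_ofPred_eq] at h4 h5
    exact ⟨a, by simp [← h4, h5], by simp [h4]⟩

theorem main_comb {K : Type u} [TopologicalSpace K] [CompactSpace K] [T2Space K]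
    (ht : CountablyTight K) {Λ : Type} (hΛ : #Λ = ℵ₁) (f : Λ → Cp K)
    (hc : ∀ T : Set Λ, ∃ c : Cp K → ℝ, Continuous c ∧ (∀ a ∈ T, 1 / 2 < c (f a)) ∧
      ∀ b, b ∉ T → c (f b) < 1 / 2) : False := by
  classical
  obtain ⟨G, hG, hGu, hGd⟩ := exists_almost_disjoint Λ hΛ
  have hsep : ∀ T : G, ∃ (p : (Σ n : ℕ, (Fin n → ℚ)) × ℕ) (z : Fin p.1.1 → K),
      ¬ {a | a ∈ (T : Set Λ) ∧ ∀ k, |(f a).1 (z k) - p.1.2 k| < 1 / ((p.2 : ℝ) + 1)}.Countable ∧
      ∀ b, b ∉ (T : Set Λ) → ∃ k, 1 / ((p.2 : ℝ) + 1) ≤ |(f b).1 (z k) - p.1.2 k| := by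
    intro T
    obtain ⟨c, hcc, h1, h2⟩ := hc T
    obtain ⟨n, z, v, m, h3, h4⟩ := sep f c hcc T (hGu T T.2) h1 h2
    exact ⟨(⟨n, v⟩, m), z, h3, h4⟩
  choose p z hz1 hz2 using hsep
  -- pigeonhole
  obtain ⟨p0, hp0⟩ : ∃ p0, ℵ₁ < #(p ⁻¹' {p0}) := by
    obtain ⟨p0, hp0⟩ := Cardinal.infinite_pigeonhole_card p (Order.succ ℵ₁)
      (Order.succ_le_of_lt hG) ((Cardinal.aleph0_le_aleph 1).trans (Order.le_succ _)) (by
        rw [(Cardinal.isRegular_succ (Cardinal.aleph0_le_aleph 1)).cof_ord]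
        have : #((Σ n : ℕ, (Fin n → ℚ)) × ℕ) ≤ ℵ₀ := Cardinal.mk_le_aleph0
        exact this.trans_lt (Cardinal.aleph0_lt_aleph_one.trans (Order.lt_succ _)))
    exact ⟨p0, (Order.lt_succ _).trans_le hp0⟩
  obtain ⟨⟨n, v⟩, m⟩ := p0
  -- transport to a fixed dimension
  set G' := p ⁻¹' {((⟨n, v⟩, m) : (Σ n : ℕ, (Fin n → ℚ)) × ℕ)} with hG'
  have hz : ∀ T : G', ∃ z : Fin n → K,
      ¬ {a | a ∈ (T.1 : Set Λ) ∧ ∀ k, |(f a).1 (z k) - v k| < 1 / ((m : ℝ) + 1)}.Countable ∧
      ∀ b, b ∉ (T.1 : Set Λ) → ∃ k, 1 / ((m : ℝ) + 1) ≤ |(f b).1 (z k) - v k| := by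
    rintro ⟨T, hT⟩
    have hT' : p T = (⟨n, v⟩, m) := hT
    have h1 := hz1 T
    have h2 := hz2 T
    revert h1 h2
    generalize z T = zT
    revert zT
    rw [hT']
    intro zT h1 h2
    exact ⟨zT, h1, h2⟩
  choose z' hz1' hz2' using hz
  have hmem : ∀ (T : G') (a : Λ), (∀ k, |(f a).1 (z' T k) - v k| < 1 / ((m : ℝ) + 1)) →
      a ∈ (T.1 : Set Λ) := by
    intro T a ha
    by_contra hcon
    obtain ⟨k, hk⟩ := hz2' T a hcon
    exact absurd (ha k) (not_lt.2 hk)
  -- basic open sets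
  let O : Finset (Λ × Fin n × ℚ × ℚ) → Set (Fin n → K) := fun b =>
    {y | ∀ q ∈ b, (q.2.2.1 : ℝ) < (f q.1).1 (y q.2.1) ∧ (f q.1).1 (y q.2.1) < q.2.2.2}
  have hG'ne : Nonempty G' := by
    have h0 : #G' ≠ 0 := (lt_of_le_of_lt zero_le hp0).ne'
    exact Cardinal.mk_ne_zero_iff.1 h0
  obtain ⟨T0⟩ := hG'ne
  let pick : Finset (Λ × Fin n × ℚ × ℚ) → G' := fun b =>
    if h : ∃ T : G', z' T ∈ O b then h.choose else T0
  have hpick : ∀ b, (∃ T : G', z' T ∈ O b) → z' (pick b) ∈ O b := by
    intro b h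
    simp only [pick, dif_pos h]
    exact h.choose_spec
  have hcard : #(range pick) ≤ ℵ₁ := by
    refine Cardinal.mk_range_le.trans ?_
    have hinf : Infinite Λ := by
      rw [Cardinal.infinite_iff, hΛ]
      exact Cardinal.aleph0_le_aleph 1
    rcases Nat.eq_zero_or_pos n with rfl | hn
    · have : IsEmpty (Λ × Fin 0 × ℚ × ℚ) := ⟨fun q => q.2.1.elim0⟩
      have h1 : #(Finset (Λ × Fin 0 × ℚ × ℚ)) ≤ ℵ₀ := Cardinal.mk_le_aleph0
      exact h1.trans (Cardinal.aleph0_le_aleph 1)
    · have : Nonempty (Fin n) := ⟨⟨0, hn⟩⟩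
      rw [Cardinal.mk_finset_of_infinite, Cardinal.mk_prod, hΛ]
      simp only [Cardinal.lift_id]
      refine (Cardinal.mul_le_max _ _).trans ?_
      have h1 : #(Fin n × ℚ × ℚ) ≤ ℵ₀ := Cardinal.mk_le_aleph0
      refine max_le (max_le le_rfl (h1.trans (Cardinal.aleph0_le_aleph 1)))
        (Cardinal.aleph0_le_aleph 1)
  obtain ⟨Ts, hTs⟩ : ∃ Ts : G', Ts ∉ range pick := by
    by_contra hcon
    push Not at hcon
    have : range pick = univ := eq_univ_of_forall hcon
    rw [this, Cardinal.mk_univ] at hcard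
    exact absurd hp0 (not_lt.2 hcard)
  -- a point in the closure with the same values
  let C : Set (Fin n → K) := closure (z' '' range pick)
  have hCc : IsCompact C := isClosed_closure.isCompact
  obtain ⟨y, hyC, hy⟩ : ∃ y ∈ C, ∀ (a : Λ) (k : Fin n), (f a).1 (y k) = (f a).1 (z' Ts k) := by
    let D : Λ × Fin n × ℕ → Set (Fin n → K) := fun q =>
      {y | |(f q.1).1 (y q.2.1) - (f q.1).1 (z' Ts q.2.1)| ≤ 1 / ((q.2.2 : ℝ) + 1)}
    have hDc : ∀ q, IsClosed (D q) := by
      intro q
      refine isClosed_le ?_ continuous_const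
      have : Continuous fun y : Fin n → K => (f q.1).1 (y q.2.1) :=
        (f q.1).2.comp (continuous_apply _)
      exact (this.sub continuous_const).abs
    have hne : (C ∩ ⋂ q, D q).Nonempty := by
      refine hCc.inter_iInter_nonempty D hDc fun u => ?_
      -- rationals around
      have hr : ∀ q : Λ × Fin n × ℕ, ∃ r : ℚ × ℚ,
          (r.1 : ℝ) < (f q.1).1 (z' Ts q.2.1) ∧ (f q.1).1 (z' Ts q.2.1) < r.2 ∧
          (f q.1).1 (z' Ts q.2.1) - 1 / ((q.2.2 : ℝ) + 1) < r.1 ∧
          (r.2 : ℝ) < (f q.1).1 (z' Ts q.2.1) + 1 / ((q.2.2 : ℝ) + 1) := by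
        intro q
        have hpos : 0 < 1 / ((q.2.2 : ℝ) + 1) := by positivity
        obtain ⟨r1, h1, h2⟩ := exists_rat_btwn
          (show (f q.1).1 (z' Ts q.2.1) - 1 / ((q.2.2 : ℝ) + 1) < (f q.1).1 (z' Ts q.2.1) by
            linarith)
        obtain ⟨r2, h3, h4⟩ := exists_rat_btwn
          (show (f q.1).1 (z' Ts q.2.1) < (f q.1).1 (z' Ts q.2.1) + 1 / ((q.2.2 : ℝ) + 1) by
            linarith)
        exact ⟨(r1, r2), h2, h3, h1, h4⟩
      choose r hr1 hr2 hr3 hr4 using hr
      let b : Finset (Λ × Fin n × ℚ × ℚ) := u.image fun q => (q.1, q.2.1, (r q).1, (r q).2)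
      have hTsO : z' Ts ∈ O b := by
        intro q hq
        obtain ⟨q', hq', rfl⟩ := Finset.mem_image.1 hq
        exact ⟨hr1 q', hr2 q'⟩
      have hpO := hpick b ⟨Ts, hTsO⟩
      refine ⟨z' (pick b), subset_closure ⟨pick b, mem_range_self b, rfl⟩, ?_⟩
      simp only [mem_iInter]
      intro q hq
      have := hpO (q.1, q.2.1, (r q).1, (r q).2) (Finset.mem_image_of_mem _ hq)
      simp only at this
      show |(f q.1).1 (z' (pick b) q.2.1) - (f q.1).1 (z' Ts q.2.1)| ≤ 1 / ((q.2.2 : ℝ) + 1)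
      have e1 := hr3 q
      have e2 := hr4 q
      rw [abs_le]
      constructor <;> linarith [this.1, this.2]
    obtain ⟨y, hyC, hyD⟩ := hne
    refine ⟨y, hyC, fun a k => ?_⟩
    have h1 : ∀ j : ℕ, |(f a).1 (y k) - (f a).1 (z' Ts k)| ≤ 1 / ((j : ℝ) + 1) := by
      intro j
      exact mem_iInter.1 hyD (a, k, j)
    have h2 : |(f a).1 (y k) - (f a).1 (z' Ts k)| ≤ 0 :=
      le_of_tendsto_of_tendsto' tendsto_const_nhds tendsto_one_div_add_atTop_nhds_zero_nat h1
    have h3 := abs_nonpos_iff.1 h2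
    linarith
  obtain ⟨S, hSsub, hSc, hyS⟩ := ct_pi ht n _ y hyC
  -- uncountable set covered by countably many countable sets
  have : ∀ s : S, ∃ T : G', T ∈ range pick ∧ z' T = s := fun s => hSsub s.2
  choose τ hτ1 hτ2 using this
  have := hSc.to_subtype
  apply hz1' Ts
  have hcov : {a | a ∈ (Ts.1 : Set Λ) ∧ ∀ k, |(f a).1 (z' Ts k) - v k| < 1 / ((m : ℝ) + 1)} ⊆
      ⋃ s : S, ((τ s).1 : Set Λ) ∩ (Ts.1 : Set Λ) := by
    rintro a ⟨haT, ha⟩
    have hUo : IsOpen {y : Fin n → K | ∀ k, |(f a).1 (y k) - v k| < 1 / ((m : ℝ) + 1)} := by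
      simp only [ofPred_forall]
      refine isOpen_iInter_of_finite fun k => ?_
      refine isOpen_lt ?_ continuous_const
      have : Continuous fun y : Fin n → K => (f a).1 (y k) := (f a).2.comp (continuous_apply _)
      exact (this.sub continuous_const).abs
    have hyU : y ∈ {y : Fin n → K | ∀ k, |(f a).1 (y k) - v k| < 1 / ((m : ℝ) + 1)} := by
      intro k
      rw [hy a k]
      exact ha k
    obtain ⟨s, hsU, hsS⟩ := mem_closure_iff.1 hyS _ hUo hyU
    refine mem_iUnion.2 ⟨⟨s, hsS⟩, hmem _ a ?_, haT⟩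
    rw [hτ2 ⟨s, hsS⟩]
    exact hsU
  refine (countable_iUnion fun s => ?_).mono hcov
  refine hGd _ (τ s).1.2 _ Ts.1.2 ?_
  intro heq
  apply hTs
  have : τ s = Ts := Subtype.ext (Subtype.ext heq)
  rw [← this]
  exact hτ1 s

/-- Uniform continuity on a Tychonoff cube, in coordinates. -/
theorem cube_uc {J : Type u} (F : (J → unitInterval) → ℝ) (hF : Continuous F) {d : ℝ}
    (hd : 0 < d) : ∃ (S : Finset J) (k : ℕ), ∀ y y' : J → unitInterval,
      (∀ j ∈ S, |(y j : ℝ) - y' j| < 1 / ((k : ℝ) + 1)) → |F y - F y'| < d := by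
  have huc := CompactSpace.uniformContinuous_of_continuous hF
  have h1 : {p : (J → unitInterval) × (J → unitInterval) | dist (F p.1) (F p.2) < d} ∈
      uniformity (J → unitInterval) := by
    have := huc (Metric.dist_mem_uniformity hd)
    simpa using this
  rw [Pi.uniformity, Filter.mem_iInf'] at h1
  obtain ⟨I, hI, V, hV, -, hVeq, -⟩ := h1
  have h2 : ∀ i, ∃ e > 0, ∀ p : (J → unitInterval) × (J → unitInterval),
      dist (p.1 i) (p.2 i) < e → p ∈ V i := by
    intro i
    obtain ⟨W, hW, hWV⟩ := Filter.mem_comap.1 (hV i)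
    obtain ⟨e, he, heW⟩ := Metric.mem_uniformity_dist.1 hW
    exact ⟨e, he, fun p hp => hWV (heW hp)⟩
  choose e he0 he using h2
  obtain ⟨c, hc, hcI⟩ := exists_pos_le hI.toFinset e he0
  obtain ⟨k, hk⟩ := exists_nat_one_div_lt hc
  refine ⟨hI.toFinset, k, fun y y' hyy' => ?_⟩
  have h3 : (y, y') ∈ {p : (J → unitInterval) × (J → unitInterval) | dist (F p.1) (F p.2) < d} := by
    rw [hVeq]
    simp only [mem_iInter]
    intro i hi
    apply he
    have hi' : i ∈ hI.toFinset := by simpa using hi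
    have := hyy' i hi'
    rw [Subtype.dist_eq, Real.dist_eq]
    exact this.trans (hk.trans_le (hcI i hi'))
  rwa [mem_ofPred_eq, Real.dist_eq] at h3

/-- Delta-system lemma for families of finite sets of fixed size indexed by a set. -/
theorem exists_delta {α : Type v} {J : Type u} [DecidableEq J] {s : Set α} (hs : ¬ s.Countable)
    (E : α → Finset J) (n : ℕ) (hn : ∀ a ∈ s, (E a).card = n) :
    ∃ (R : Finset J) (M : Set α), M ⊆ s ∧ ¬ M.Countable ∧ (∀ a ∈ M, R ⊆ E a) ∧
      ∀ a ∈ M, ∀ b ∈ M, a ≠ b → ∀ j, j ∈ E a → j ∈ E b → j ∈ R := by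
  obtain ⟨R, hR, hRmax⟩ := exists_root hs E n hn
  let r : α → α → Prop := fun a b => ∀ j, j ∈ E a → j ∈ E b → j ∈ R
  obtain ⟨M, hM⟩ := zorn_subset {M : Set α | M ⊆ {a | a ∈ s ∧ R ⊆ E a} ∧ M.Pairwise r} (by
    intro c hc hchain
    refine ⟨⋃₀ c, ⟨sUnion_subset fun t ht => (hc ht).1, ?_⟩, fun s hs => subset_sUnion_of_mem hs⟩
    rw [Set.pairwise_sUnion hchain.directedOn]
    exact fun a ha => (hc ha).2)
  have hMp := hM.prop
  refine ⟨R, M, fun a ha => (hMp.1 ha).1, ?_, fun a ha => (hMp.1 ha).2,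
    fun a ha b hb hab => hMp.2 ha hb hab⟩
  intro hMc
  -- the union of the petals is countable, so some further element avoids it
  have hU : (⋃ a ∈ M, (E a : Set J)).Countable := hMc.biUnion fun a _ => (E a).countable_toSet
  have hbad : (⋃ j ∈ (⋃ a ∈ M, (E a : Set J)) \ (R : Set J),
      {a | (a ∈ s ∧ R ⊆ E a) ∧ j ∈ E a}).Countable := by
    refine (hU.mono sdiff_subset).biUnion fun j hj => hRmax j ?_
    simpa using hj.2
  obtain ⟨b, hb, hbnot⟩ : ∃ b ∈ {a | a ∈ s ∧ R ⊆ E a}, b ∉ M ∪ (⋃ j ∈ (⋃ a ∈ M, (E a : Set J)) \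
      (R : Set J), {a | (a ∈ s ∧ R ⊆ E a) ∧ j ∈ E a}) := by
    by_contra hcon
    push Not at hcon
    exact hR ((hMc.union hbad).mono hcon)
  have hbM : b ∉ M := fun h => hbnot (Or.inl h)
  have hbr : ∀ a ∈ M, ∀ j, j ∈ E b → j ∈ E a → j ∈ R := by
    intro a ha j hjb hja
    by_contra hjR
    apply hbnot
    refine Or.inr ?_
    simp only [mem_iUnion]
    exact ⟨j, ⟨mem_iUnion₂.2 ⟨a, ha, hja⟩, hjR⟩, hb, hjb⟩
  have hins : insert b M ∈ {M : Set α | M ⊆ {a | a ∈ s ∧ R ⊆ E a} ∧ M.Pairwise r} := by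
    refine ⟨insert_subset hb hMp.1, hMp.2.insert fun a ha _ => ⟨hbr a ha, fun j h1 h2 =>
      hbr a ha j h2 h1⟩⟩
  exact hbM (hM.le_of_ge hins (subset_insert _ _) (mem_insert _ _))

theorem ext_family {X : Type u} [TopologicalSpace X] [CompactSpace X] [T2Space X]
    (hm : ¬ TopologicalSpace.MetrizableSpace X) {J : Type u} (i : X → (J → unitInterval))
    (hi : Continuous i) (φ : Cp X → Cp (J → unitInterval)) (_hinj : Function.Injective i)
    (hφ : ∀ (f : Cp X) (x : X), (φ f).1 (i x) = f.1 x) :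
    ∃ Λ : Type, #Λ = ℵ₁ ∧ ∃ f : Λ → Cp X, ∀ T : Set Λ, ∃ y : J → unitInterval,
      (∀ a ∈ T, 1 / 2 < (φ (f a)).1 y) ∧ ∀ b, b ∉ T → (φ (f b)).1 y < 1 / 2 := by
  classical
  have hne : Nonempty X := by
    by_contra hcon
    rw [not_nonempty_iff] at hcon
    apply hm
    infer_instance
  obtain ⟨x0⟩ := hne
  have step : ∀ C : Set J, ∃ (x x' : X) (g : Cp X) (S : Finset J) (k : ℕ), C.Countable →
      (∀ j ∈ C, i x j = i x' j) ∧ g.1 x = 1 ∧ g.1 x' = 0 ∧
      ∀ y y' : J → unitInterval, (∀ j ∈ S, |(y j : ℝ) - y' j| < 1 / ((k : ℝ) + 1)) →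
        |(φ g).1 y - (φ g).1 y'| < 1 / 2 := by
    intro C
    by_cases hC : C.Countable
    · obtain ⟨x, x', hxx', hne⟩ : ∃ x x' : X, (∀ j ∈ C, i x j = i x' j) ∧ x ≠ x' := by
        by_contra hcon
        push Not at hcon
        apply hm
        have := hC.to_subtype
        let p : X → (C → unitInterval) := fun x c => i x c
        have hpc : Continuous p := by
          refine continuous_pi fun c => ?_
          exact (continuous_apply (c : J)).comp hi
        have hpi : Function.Injective p := by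
          intro x x' h
          exact hcon x x' fun j hj => congrFun h ⟨j, hj⟩
        exact (hpc.isClosedEmbedding hpi).isEmbedding.metrizableSpace
      obtain ⟨g, hg0, hg1, -⟩ := exists_continuous_zero_one_of_isClosed
        (isClosed_singleton (x := x')) (isClosed_singleton (x := x)) (by
          rw [Set.disjoint_singleton]; exact hne.symm)
      let g' : Cp X := ⟨g, g.continuous⟩
      obtain ⟨S, k, hS⟩ := cube_uc (φ g').1 (φ g').2 (show (0 : ℝ) < 1 / 2 by norm_num)
      exact ⟨x, x', g', S, k, fun _ => ⟨hxx', hg1 rfl, hg0 rfl, hS⟩⟩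
    · exact ⟨x0, x0, ⟨fun _ => 0, continuous_const⟩, ∅, 0, fun h => absurd h hC⟩
  choose X1 X2 g S k hdata using step
  -- the recursion
  let A : Omega → Finset J := WellFounded.fix (r := (· < ·)) wellFounded_lt
    (fun a ih => S (⋃ b : {b // b < a}, (ih b.1 b.2 : Set J)))
  have hA : ∀ a, A a = S (⋃ b : {b // b < a}, (A b.1 : Set J)) := fun a =>
    WellFounded.fix_eq _ _ _
  let C : Omega → Set J := fun a => ⋃ b : {b // b < a}, (A b.1 : Set J)
  have hAC : ∀ a, A a = S (C a) := hA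
  have hCc : ∀ a, (C a).Countable := by
    intro a
    have : Countable {b // b < a} := (countable_Iio_Omega a).to_subtype
    exact countable_iUnion fun b => (A b.1).countable_toSet
  have hAsub : ∀ a b, b < a → ∀ j ∈ A b, j ∈ C a := by
    intro a b hab j hj
    exact mem_iUnion.2 ⟨⟨b, hab⟩, hj⟩
  -- thinning out
  obtain ⟨⟨n, k0⟩, h1⟩ := unc_pigeonhole not_countable_univ_Omega
    (fun a => ((A a).card, k (C a)))
  obtain ⟨R, M, hMs, hMu, hMR, hMd⟩ := exists_delta h1 A n (fun a ha => (Prod.mk.inj ha.2).1)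
  have hMk : ∀ a ∈ M, k (C a) = k0 := fun a ha => (Prod.mk.inj (hMs ha).2).2
  obtain ⟨a0, ha0⟩ : M.Nonempty := by
    rw [Set.nonempty_iff_ne_empty]
    rintro rfl
    exact hMu countable_empty
  have h2 : ¬ {a | a ∈ M ∧ a0 < a}.Countable := by
    intro hcount
    apply hMu
    refine (hcount.union ((countable_Iio_Omega a0).insert a0)).mono ?_
    intro a ha
    rcases lt_trichotomy a a0 with h | h | h
    · exact Or.inr (Or.inr h)
    · exact Or.inr (Or.inl h)
    · exact Or.inl ⟨ha, h⟩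
  obtain ⟨w, hw⟩ := unc_pigeonhole h2
    (fun a => fun j : R => ⌊((k0 : ℝ) + 1) * (i (X1 (C a)) j : ℝ)⌋)
  set M2 : Set Omega := {a | a ∈ {a | a ∈ M ∧ a0 < a} ∧
    (fun j : R => ⌊((k0 : ℝ) + 1) * (i (X1 (C a)) j : ℝ)⌋) = w} with hM2
  have hcardM2 : #M2 = ℵ₁ := by
    apply le_antisymm
    · rw [← mk_Omega]
      exact Cardinal.mk_set_le M2
    · rw [← not_lt, ← countable_iff_lt]
      exact hw
  have hkpos : 0 < (k0 : ℝ) + 1 := by positivity
  have hclose : ∀ a ∈ M2, ∀ b ∈ M2, ∀ j ∈ R,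
      |(i (X1 (C a)) j : ℝ) - i (X1 (C b)) j| < 1 / ((k0 : ℝ) + 1) := by
    intro a ha b hb j hj
    have e1 : ⌊((k0 : ℝ) + 1) * (i (X1 (C a)) j : ℝ)⌋ = ⌊((k0 : ℝ) + 1) * (i (X1 (C b)) j : ℝ)⌋ := by
      have e2 := congrFun ha.2 ⟨j, hj⟩
      have e3 := congrFun hb.2 ⟨j, hj⟩
      exact e2.trans e3.symm
    have e4 := Int.abs_sub_lt_one_of_floor_eq_floor e1
    rw [← mul_sub, abs_mul, abs_of_pos hkpos] at e4
    rw [lt_div_iff₀ hkpos, mul_comm]
    exact e4
  have hX12 : ∀ a ∈ M2, ∀ j ∈ R, i (X1 (C a)) j = i (X2 (C a)) j := by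
    intro a ha j hj
    exact (hdata (C a) (hCc a)).1 j (hAsub a a0 ha.1.2 j (hMR a0 ha0 hj))
  obtain ⟨a1, ha1⟩ : M2.Nonempty := by
    rw [Set.nonempty_iff_ne_empty]
    intro h0
    apply hw
    rw [h0]
    exact countable_empty
  refine ⟨M2, hcardM2, fun a => g (C a), fun T => ?_⟩
  let y : J → unitInterval := fun j =>
    if j ∈ R then i (X1 (C a1)) j else
      if h : ∃ a : M2, j ∈ A a then
        (if h.choose ∈ T then i (X1 (C h.choose)) j else i (X2 (C h.choose)) j)
      else 0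
  have hchoose : ∀ (a : M2) (j : J), j ∈ A a → j ∉ R →
      y j = if a ∈ T then i (X1 (C a)) j else i (X2 (C a)) j := by
    intro a j hj hjR
    have h : ∃ a : M2, j ∈ A a := ⟨a, hj⟩
    have hca : h.choose = a := by
      by_contra hne
      have hne' : (h.choose : Omega) ≠ a := fun h' => hne (Subtype.ext h')
      exact hjR (hMd _ h.choose.2.1.1 _ a.2.1.1 hne' j h.choose_spec hj)
    simp only [y, if_neg hjR, dif_pos h]
    rw [hca]
  refine ⟨y, fun a haT => ?_, fun a haT => ?_⟩
  · obtain ⟨d1, d2, d3, d4⟩ := hdata (C a) (hCc a)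
    have h3 : |(φ (g (C a))).1 y - (φ (g (C a))).1 (i (X1 (C a)))| < 1 / 2 := by
      apply d4
      rw [← hAC, hMk a a.2.1.1]
      intro j hj
      by_cases hjR : j ∈ R
      · simp only [y, if_pos hjR]
        exact hclose a1 ha1 a a.2 j hjR
      · rw [hchoose a j hj hjR, if_pos haT]
        simp only [sub_self, abs_zero]
        positivity
    rw [hφ, d2, abs_lt] at h3
    linarith [h3.1]
  · obtain ⟨d1, d2, d3, d4⟩ := hdata (C a) (hCc a)
    have h3 : |(φ (g (C a))).1 y - (φ (g (C a))).1 (i (X2 (C a)))| < 1 / 2 := by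
      apply d4
      rw [← hAC, hMk a a.2.1.1]
      intro j hj
      by_cases hjR : j ∈ R
      · simp only [y, if_pos hjR]
        rw [← hX12 a a.2 j hjR]
        exact hclose a1 ha1 a a.2 j hjR
      · rw [hchoose a j hj hjR, if_neg haT]
        simp only [sub_self, abs_zero]
        positivity
    rw [hφ, d3, abs_lt] at h3
    linarith [h3.2]

/-- The filter of sets of subsets of `W` with complement of size at most `#W`. -/
def coSmall (W : Type u) [Infinite W] : Filter (Set W) where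
  sets := {s | #(sᶜ : Set (Set W)) ≤ #W}
  univ_sets := by simp
  sets_of_superset := by
    intro s t hs hst
    have hs' : #(sᶜ : Set (Set W)) ≤ #W := hs
    show #(tᶜ : Set (Set W)) ≤ #W
    exact (Cardinal.mk_le_mk_of_subset (compl_subset_compl.2 hst)).trans hs'
  inter_sets := by
    intro s t hs ht
    show #((s ∩ t)ᶜ : Set (Set W)) ≤ #W
    rw [compl_inter]
    refine (Cardinal.mk_union_le _ _).trans ?_
    have hW : ℵ₀ ≤ #W := Cardinal.infinite_iff.1 inferInstance
    calc #(sᶜ : Set (Set W)) + #(tᶜ : Set (Set W)) ≤ #W + #W := add_le_add hs ht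
      _ = #W := Cardinal.add_eq_self hW

theorem mem_coSmall {W : Type u} [Infinite W] {s : Set (Set W)} :
    s ∈ coSmall W ↔ #(sᶜ : Set (Set W)) ≤ #W := Iff.rfl

/-- A space with a single non-isolated point `∅`, whose neighbourhoods are the sets with small
complement. -/
def Lsp (W : Type u) : Type u := Set W

instance (W : Type u) [Infinite W] : TopologicalSpace (Lsp W) :=
  nhdsAdjoint (∅ : Set W) (coSmall W)

def Lsp.pt (W : Type u) : Lsp W := (∅ : Set W)

theorem Lsp.isOpen_iff {W : Type u} [Infinite W] {s : Set (Lsp W)} :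
    IsOpen s ↔ (Lsp.pt W ∈ s → #(sᶜ : Set (Lsp W)) ≤ #W) := Iff.rfl

theorem Lsp.isClosed_pt (W : Type u) [Infinite W] : IsClosed ({Lsp.pt W} : Set (Lsp W)) := by
  rw [← isOpen_compl_iff, Lsp.isOpen_iff]
  intro h
  exact absurd rfl h

theorem Lsp.isOpen_singleton {W : Type u} [Infinite W] {a : Lsp W} (ha : a ≠ Lsp.pt W) :
    IsOpen ({a} : Set (Lsp W)) := by
  rw [Lsp.isOpen_iff]
  intro h
  exact absurd h.symm ha

theorem one_le_W (W : Type u) [Infinite W] : (1 : Cardinal.{u}) ≤ #W :=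
  Cardinal.one_le_aleph0.trans (Cardinal.infinite_iff.1 inferInstance)

theorem Lsp.isClosed_singleton' {W : Type u} [Infinite W] (a : Lsp W) :
    IsClosed ({a} : Set (Lsp W)) := by
  rw [← isOpen_compl_iff, Lsp.isOpen_iff]
  intro _
  rw [compl_compl, Cardinal.mk_singleton]
  exact one_le_W W

instance (W : Type u) [Infinite W] : CompletelyRegularSpace (Lsp W) := by
  refine CompletelyRegularSpace.of_isTopologicalBasis_clopens ?_
  refine TopologicalSpace.isTopologicalBasis_of_isOpen_of_nhds (fun s hs => hs.isOpen) ?_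
  intro a U haU hU
  by_cases ha : a = Lsp.pt W
  · subst ha
    refine ⟨U, ⟨?_, hU⟩, haU, subset_rfl⟩
    rw [← isOpen_compl_iff, Lsp.isOpen_iff]
    intro h
    exact absurd haU h
  · exact ⟨{a}, ⟨Lsp.isClosed_singleton' a, Lsp.isOpen_singleton ha⟩, rfl, by simpa using haU⟩

instance (W : Type u) [Infinite W] : T1Space (Lsp W) := ⟨Lsp.isClosed_singleton'⟩

instance (W : Type u) [Infinite W] : T35Space (Lsp W) where

/-- a function continuous at the special point agrees with its value there off a small set -/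
theorem Lsp.small_ne {W : Type u} [Infinite W] (h : Lsp W → ℝ) (hc : Continuous h) (n : ℕ) :
    #({s : Lsp W | 1 / ((n : ℝ) + 1) ≤ |h s - h (Lsp.pt W)|} : Set (Lsp W)) ≤ #W := by
  have hO : IsOpen {s : Lsp W | |h s - h (Lsp.pt W)| < 1 / ((n : ℝ) + 1)} :=
    isOpen_lt (hc.sub continuous_const).abs continuous_const
  rw [Lsp.isOpen_iff] at hO
  have h1 := hO (by
    show |h (Lsp.pt W) - h (Lsp.pt W)| < 1 / ((n : ℝ) + 1)
    rw [sub_self, abs_zero]; positivity)
  refine le_trans (Cardinal.mk_le_mk_of_subset ?_) h1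
  intro s hs
  have hs' : 1 / ((n : ℝ) + 1) ≤ |h s - h (Lsp.pt W)| := hs
  intro hs''
  have hs3 : |h s - h (Lsp.pt W)| < 1 / ((n : ℝ) + 1) := hs''
  exact absurd hs3 (not_lt.2 hs')

/-- The plank `(β X × L) \ ((β X \ X) × {∅})`. -/
def Plank (X : Type u) [TopologicalSpace X] (W : Type u) [Infinite W] : Type u :=
  {p : StoneCech X × Lsp W // p.2 = Lsp.pt W → p.1 ∈ range (stoneCechUnit : X → StoneCech X)}

instance (X : Type u) [TopologicalSpace X] (W : Type u) [Infinite W] :
    TopologicalSpace (Plank X W) := by unfold Plank; infer_instance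

instance (X : Type u) [TopologicalSpace X] (W : Type u) [Infinite W] :
    T35Space (Plank X W) := by unfold Plank; infer_instance

theorem compact_of_extral {X : Type u} [TopologicalSpace X] [T35Space X]
    (h : TExtral X) : CompactSpace X := by
  classical
  rcases isEmpty_or_nonempty X with hX | hX
  · infer_instance
  by_contra hnc
  -- the unit is a dense embedding which is not surjective
  have hemb : IsEmbedding (stoneCechUnit : X → StoneCech X) :=
    ⟨isInducing_stoneCechUnit, isInducing_stoneCechUnit.injective⟩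
  obtain ⟨p, hp⟩ : ∃ p : StoneCech X, p ∉ range (stoneCechUnit : X → StoneCech X) := by
    by_contra hcon
    push Not at hcon
    apply hnc
    have hs : Function.Surjective (stoneCechUnit : X → StoneCech X) := hcon
    exact (hemb.toHomeomorphOfSurjective hs).symm.compactSpace
  let W := X × Cp X × ℕ
  have hWinf : Infinite W := by
    obtain ⟨x0⟩ := hX
    have f0 : Cp X := ⟨fun _ => 0, continuous_const⟩
    exact Infinite.of_injective (fun n : ℕ => ((x0, f0, n) : W)) (fun a b hab =>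
      (Prod.mk.inj (Prod.mk.inj hab).2).2)
  let i : X → Plank X W := fun x => ⟨(stoneCechUnit x, Lsp.pt W), fun _ => mem_range_self x⟩
  have hval : IsEmbedding (Subtype.val : Plank X W → StoneCech X × Lsp W) := IsEmbedding.subtypeVal
  have hiemb : IsEmbedding i := by
    have h1 : IsEmbedding (fun x : X => ((stoneCechUnit x, Lsp.pt W) : StoneCech X × Lsp W)) := by
      have := (isEmbedding_prodMkLeft (X := StoneCech X) (Lsp.pt W)).comp hemb
      exact this
    exact IsEmbedding.of_comp (by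
      refine Continuous.subtype_mk ?_ _
      exact h1.continuous) continuous_subtype_val h1
  have hicl : IsClosed (range i) := by
    have : range i = (fun q : Plank X W => q.1.2) ⁻¹' {Lsp.pt W} := by
      ext q
      constructor
      · rintro ⟨x, rfl⟩; rfl
      · intro hq
        obtain ⟨x, hx⟩ := q.2 hq
        refine ⟨x, ?_⟩
        apply Subtype.ext
        exact Prod.ext hx hq.symm
    rw [this]
    exact (Lsp.isClosed_pt W).preimage (continuous_snd.comp continuous_subtype_val)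
  obtain ⟨φ, hφc, hφ⟩ := h (Plank X W) i ⟨hiemb, hicl⟩
  -- the vertical slices
  let vert : X → Lsp W → Plank X W := fun x s => ⟨(stoneCechUnit x, s), fun _ => mem_range_self x⟩
  have hvert : ∀ x, Continuous (vert x) := fun x =>
    Continuous.subtype_mk (by fun_prop) _
  let bad : W → Set (Lsp W) := fun w =>
    {s | 1 / ((w.2.2 : ℝ) + 1) ≤ |(φ w.2.1).1 (vert w.1 s) - (φ w.2.1).1 (vert w.1 (Lsp.pt W))|}
  have hbad : #(⋃ w, bad w : Set (Lsp W)) ≤ #W := by
    refine (Cardinal.mk_iUnion_le bad).trans ?_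
    have h1 : ∀ w, #(bad w) ≤ #W := fun w =>
      Lsp.small_ne _ ((φ w.2.1).2.comp (hvert w.1)) w.2.2
    have h2 : (⨆ w, #(bad w)) ≤ #W := ciSup_le' h1
    calc #W * (⨆ w, #(bad w)) ≤ #W * #W := mul_le_mul_right h2 _
      _ = #W := Cardinal.mul_eq_self (Cardinal.infinite_iff.1 hWinf)
  obtain ⟨s, hs⟩ : ∃ s : Lsp W, s ∉ (⋃ w, bad w) ∪ {Lsp.pt W} := by
    by_contra hcon
    push Not at hcon
    have h1 : (⋃ w, bad w) ∪ {Lsp.pt W} = univ := eq_univ_of_forall hcon
    have h2 : #(Lsp W) ≤ #W := by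
      rw [← Cardinal.mk_univ, ← h1]
      refine (Cardinal.mk_union_le _ _).trans ?_
      rw [Cardinal.mk_singleton]
      calc #(⋃ w, bad w : Set (Lsp W)) + 1 ≤ #W + #W := add_le_add hbad (one_le_W W)
        _ = #W := Cardinal.add_eq_self (Cardinal.infinite_iff.1 hWinf)
    have h3 : #(Lsp W) = 2 ^ #W := Cardinal.mk_set
    rw [h3] at h2
    exact absurd (Cardinal.cantor #W) (not_lt.2 h2)
  have hspt : s ≠ Lsp.pt W := fun h' => hs (Or.inr h')
  have heq : ∀ (f : Cp X) (x : X), (φ f).1 (vert x s) = f.1 x := by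
    intro f x
    have h1 : ∀ n : ℕ, |(φ f).1 (vert x s) - (φ f).1 (vert x (Lsp.pt W))| ≤ 1 / ((n : ℝ) + 1) := by
      intro n
      have h2 : s ∉ bad (x, f, n) := fun h' => hs (Or.inl (mem_iUnion.2 ⟨_, h'⟩))
      exact (not_le.1 h2).le
    have h2 : |(φ f).1 (vert x s) - (φ f).1 (vert x (Lsp.pt W))| ≤ 0 :=
      le_of_tendsto_of_tendsto' tendsto_const_nhds tendsto_one_div_add_atTop_nhds_zero_nat h1
    have h3 := abs_nonpos_iff.1 h2
    have h4 : (φ f).1 (vert x (Lsp.pt W)) = f.1 x := hφ f x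
    linarith
  -- horizontal slice at level `s`
  let hor : StoneCech X → Plank X W := fun q => ⟨(q, s), fun h' => absurd h' hspt⟩
  have hhor : Continuous hor := Continuous.subtype_mk (by fun_prop) _
  let e : Cp X → ℝ := fun f => (φ f).1 (hor p)
  have hec : Continuous e := by
    have h1 : Continuous fun g : Cp (Plank X W) => g.1 (hor p) :=
      (continuous_apply (hor p)).comp continuous_subtype_val
    exact h1.comp hφc
  have heval : ∀ g : C(StoneCech X, ℝ), e ⟨fun x => g (stoneCechUnit x),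
      g.continuous.comp continuous_stoneCechUnit⟩ = g p := by
    intro g
    have h1 : (fun q => (φ ⟨fun x => g (stoneCechUnit x),
        g.continuous.comp continuous_stoneCechUnit⟩).1 (hor q)) = g := by
      refine denseRange_stoneCechUnit.equalizer ?_ g.continuous ?_
      · exact (φ _).2.comp hhor
      · funext x
        exact heq _ x
    exact congrFun h1 p
  let z : Cp X := ⟨fun _ => 0, continuous_const⟩
  have hz : e z = 0 := by
    have := heval 0
    exact this
  have hnh : e ⁻¹' Iio 1 ∈ 𝓝 z := by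
    apply hec.continuousAt.preimage_mem_nhds
    rw [hz]
    exact isOpen_Iio.mem_nhds (by norm_num)
  obtain ⟨E, d, hd, hE⟩ := cp_nhds hnh
  have hdisj : Disjoint (stoneCechUnit '' (E : Set X)) ({p} : Set (StoneCech X)) := by
    rw [Set.disjoint_singleton_right]
    rintro ⟨x, -, hx⟩
    exact hp ⟨x, hx⟩
  obtain ⟨g, hg0, hg1, -⟩ := exists_continuous_zero_one_of_isClosed
    (E.finite_toSet.image _).isClosed isClosed_singleton hdisj
  have h5 := hE ⟨fun x => g (stoneCechUnit x), g.continuous.comp continuous_stoneCechUnit⟩ (by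
    intro x hx
    have : g (stoneCechUnit x) = 0 := hg0 ⟨x, hx, rfl⟩
    simp [z, this, hd])
  have h6 : e ⟨fun x => g (stoneCechUnit x), g.continuous.comp continuous_stoneCechUnit⟩ < 1 := h5
  rw [heval] at h6
  have h7 : g p = 1 := hg1 rfl
  linarith

/-- **Every t-extral space of countable tightness is metrizable** (all spaces Tychonoff). -/
theorem result (X : Type u) [TopologicalSpace X] [T35Space X] (hX : TExtral X)
    (ht : CountablyTight X) : TopologicalSpace.MetrizableSpace X := by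
  have hcomp : CompactSpace X := compact_of_extral hX
  by_contra hm
  let i : X → (C(X, unitInterval) → unitInterval) := fun x g => g x
  have hic : Continuous i := continuous_pi fun g => g.continuous
  have hinj : Function.Injective i := by
    intro x y hxy
    by_contra hne
    obtain ⟨f, cf, hf, hhf⟩ := CompletelyRegularSpace.completely_regular x {y}
      isClosed_singleton (by simpa using hne)
    have h1 : f x = f y := congrFun hxy ⟨f, cf⟩
    have h2 : f y = 1 := hhf rfl
    rw [hf, h2] at h1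
    exact zero_ne_one h1
  have hicl : IsClosedEmbedding i := hic.isClosedEmbedding hinj
  obtain ⟨φ, hφc, hφ⟩ := hX (C(X, unitInterval) → unitInterval) i hicl
  obtain ⟨Λ, hΛ, f, hf⟩ := ext_family hm i hic φ hinj hφ
  refine main_comb ht hΛ f fun T => ?_
  obtain ⟨y, h1, h2⟩ := hf T
  refine ⟨fun g => (φ g).1 y, ?_, h1, h2⟩
  have h3 : Continuous fun g : Cp (C(X, unitInterval) → unitInterval) => g.1 y :=
    (continuous_apply y).comp continuous_subtype_val
  exact h3.comp hφc

end Pool.Agent.Results.MP_9c9ca5_gt.TExtralMetrizable
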